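import Mathlib

/-!
# MP_5b71d7_co: Frankl's conjecture for 2-dense union-closed families

Every 2-dense union-closed family satisfies Frankl's condition; in fact some element lies in
strictly more than half of its members.
-/

namespace Pool.Agent.Results.MP_5b71d7_co.TwoDense

open Finset

/-- The family `P_n` of all nonempty subsets of the ground set. -/
def allNonempty (n : ℕ) : Finset (Finset (Fin n)) := univ.filter (fun A => A.Nonempty)

/-- `F` is union-closed over `[n]`: its members are nonempty, `[n] ∈ F`, and `F` is closed under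
unions of two members. -/
def UnionClosed {n : ℕ} (F : Finset (Finset (Fin n))) : Prop :=
  ∅ ∉ F ∧ univ ∈ F ∧ ∀ A ∈ F, ∀ B ∈ F, A ∪ B ∈ F

/-- The closure of `F`: all nonempty sets `A` such that `F ∪ {A}` is union-closed. -/
noncomputable def closure {n : ℕ} (F : Finset (Finset (Fin n))) : Finset (Finset (Fin n)) := by
  classical
  exact (allNonempty n).filter (fun A => UnionClosed (F ∪ {A}))

/-- `F` is `k`-dense: `k` is the least number of closure steps leading to `P_n`. -/
def Dense {n : ℕ} (k : ℕ) (F : Finset (Finset (Fin n))) : Prop :=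
  closure^[k] F = allNonempty n ∧ ∀ j < k, closure^[j] F ≠ allNonempty n

set_option linter.unusedSectionVars false

section core

variable {α : Type*} [Fintype α] [DecidableEq α] {n : ℕ} [NeZero n] (e : α ≃ ZMod n)

/-- Cyclic interval of length `s + 1` starting at `i`. -/
def iv (i : α) (s : ℕ) : Finset α := (range (s + 1)).image (fun t : ℕ => e.symm (e i + (t : ZMod n)))

lemma mem_iv {i x : α} {s : ℕ} : x ∈ iv e i s ↔ ∃ t ≤ s, e x = e i + (t : ZMod n) := by
  unfold iv
  rw [mem_image]
  constructor
  · rintro ⟨t, ht, rfl⟩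
    exact ⟨t, by rw [mem_range] at ht; omega, by simp⟩
  · rintro ⟨t, ht, h⟩
    exact ⟨t, by rw [mem_range]; omega, by rw [← h]; simp⟩

lemma iv_zero (i : α) : iv e i 0 = {i} := by simp [iv]

lemma iv_succ (i : α) (s : ℕ) :
    iv e i (s + 1) = insert (e.symm (e i + ((s + 1 : ℕ) : ZMod n))) (iv e i s) := by
  unfold iv
  rw [range_add_one, image_insert]

lemma iv_full (i : α) : iv e i (n - 1) = univ := by
  ext x
  simp only [mem_iv, mem_univ, iff_true]
  refine ⟨(e x - e i).val, ?_, ?_⟩
  · have := ZMod.val_lt (e x - e i)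
    omega
  · rw [ZMod.natCast_val, ZMod.cast_id]
    ring

include e in
/-- The main counting argument. -/
theorem core (F : Finset (Finset α)) (h0 : ∅ ∉ F) (h1 : univ ∈ F)
    (hu : ∀ A ∈ F, ∀ B ∈ F, A ∪ B ∈ F)
    (hc : ∀ A ∈ F, ∀ B ∈ F, A ⊂ B → ∀ C, B ⊆ C → C ∈ F) :
    ∃ i : α, F.card < 2 * (F.filter (fun A => i ∈ A)).card := by
  classical
  -- a non-member contains at most one member
  have uniq : ∀ M ∈ F, ∀ M' ∈ F, ∀ C, C ∉ F → M ⊆ C → M' ⊆ C → M = M' := by
    intro M hM M' hM' C hC hMC hMC'
    by_contra hne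
    apply hC
    have hU := hu M hM M' hM'
    by_cases h : M' ⊆ M
    · have : M' ⊂ M := ⟨h, fun h' => hne (subset_antisymm h' h)⟩
      exact hc M' hM' M hM this C hMC
    · have : M ⊂ M ∪ M' := by
        refine ⟨subset_union_left, fun h' => h ?_⟩
        exact (union_subset_iff.1 h').2
      exact hc M hM _ hU this C (union_subset hMC hMC')
  -- leaving and entering pairs
  set L : Finset (Finset α × α) :=
    univ.filter (fun p => p.1 ∈ F ∧ p.2 ∉ p.1 ∧ insert p.2 p.1 ∉ F) with hL
  set E : Finset (Finset α × α) :=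
    univ.filter (fun p => p.1 ∉ F ∧ p.2 ∉ p.1 ∧ insert p.2 p.1 ∈ F) with hE
  -- the jump along the cyclic chain
  have hex : ∀ p ∈ L, ∃ s : ℕ, s + 1 < n ∧ p.1 ∪ iv e p.2 s ∉ F ∧ p.1 ∪ iv e p.2 (s + 1) ∈ F := by
    intro p hp
    rw [hL, mem_filter] at hp
    obtain ⟨-, p1, p2, p3⟩ := hp
    have hfull : p.1 ∪ iv e p.2 (n - 1) = univ := by rw [iv_full]; ext z; simp
    have hzero : p.1 ∪ iv e p.2 0 = insert p.2 p.1 := by
      rw [iv_zero]; ext z; simp
    have hn : n - 1 ≠ 0 := by
      intro h
      rw [h, hzero] at hfull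
      rw [hfull] at p3
      exact p3 h1
    have hex : ∃ s, p.1 ∪ iv e p.2 (s + 1) ∈ F := ⟨n - 2, by
      rw [show n - 2 + 1 = n - 1 by omega, hfull]; exact h1⟩
    refine ⟨Nat.find hex, ?_, ?_, Nat.find_spec hex⟩
    · have : Nat.find hex ≤ n - 2 := Nat.find_min' hex (by
        rw [show n - 2 + 1 = n - 1 by omega, hfull]; exact h1)
      omega
    · rcases Nat.eq_zero_or_pos (Nat.find hex) with h | h
      · rw [h, hzero]; exact p3
      · have := Nat.find_min hex (m := Nat.find hex - 1) (by omega)
        rwa [show Nat.find hex - 1 + 1 = Nat.find hex by omega] at this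
  choose! s hs1 hs2 hs3 using hex
  set E' : Finset (Finset α × α) := E.filter (fun p => ∃ M ∈ F, M ⊆ p.1) with hE'
  have hle : L.card ≤ E'.card := by
    refine card_le_card_of_injOn
      (fun p => (p.1 ∪ iv e p.2 (s p), e.symm (e p.2 + ((s p + 1 : ℕ) : ZMod n)))) ?_ ?_
    · intro p hp
      have hp' := hp
      rw [mem_coe, hL, mem_filter] at hp
      obtain ⟨-, p1, p2, p3⟩ := hp
      have i1 := hs2 p hp'
      have i2 := hs3 p hp'
      rw [iv_succ, union_insert] at i2
      simp only [hE', hE, coe_filter, mem_filter, mem_univ, true_and, Set.mem_ofPred_eq]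
      refine ⟨⟨i1, ?_, i2⟩, p.1, p1, subset_union_left⟩
      intro h
      rw [insert_eq_of_mem h] at i2
      exact i1 i2
    · intro p hp q hq hpq
      have hp' := hp
      have hq' := hq
      rw [mem_coe, hL, mem_filter] at hp hq
      obtain ⟨-, p1, p2, p3⟩ := hp
      obtain ⟨-, q1, q2, q3⟩ := hq
      have e1 : p.1 ∪ iv e p.2 (s p) = q.1 ∪ iv e q.2 (s q) := congrArg Prod.fst hpq
      have e2 : e.symm (e p.2 + ((s p + 1 : ℕ) : ZMod n))
          = e.symm (e q.2 + ((s q + 1 : ℕ) : ZMod n)) := congrArg Prod.snd hpq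
      have e3 := e.symm.injective e2
      push_cast at e3
      have e4 : e p.2 + (s p : ZMod n) = e q.2 + (s q : ZMod n) := by
        have : e p.2 + (s p : ZMod n) + 1 = e q.2 + (s q : ZMod n) + 1 := by
          rw [add_assoc, add_assoc]; exact e3
        exact add_right_cancel this
      have hM : p.1 = q.1 := by
        refine uniq p.1 p1 q.1 q1 _ (hs2 p hp') subset_union_left ?_
        rw [e1]
        exact subset_union_left
      -- comparing the lengths
      have len : ∀ u v : Finset α × α, u ∈ L → v ∈ L → u.1 = v.1 →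
          u.1 ∪ iv e u.2 (s u) = v.1 ∪ iv e v.2 (s v) →
          e u.2 + (s u : ZMod n) = e v.2 + (s v : ZMod n) → s u ≤ s v := by
        intro u v hu' hv' huv h1' h2'
        have hu'' := (mem_filter.1 hu').2
        have hmem : u.2 ∈ v.1 ∪ iv e v.2 (s v) := by
          rw [← h1']
          apply mem_union_right
          rw [mem_iv]
          exact ⟨0, Nat.zero_le _, by simp⟩
        rw [mem_union] at hmem
        rcases hmem with h | h
        · rw [← huv] at h; exact absurd h hu''.2.1
        · obtain ⟨t, ht, h3⟩ := (mem_iv e).1 h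
          have h4 : (s u : ZMod n) = ((s v - t : ℕ) : ZMod n) := by
            rw [Nat.cast_sub ht]
            rw [h3] at h2'
            have h5 : e v.2 + ((t : ZMod n) + (s u : ZMod n)) = e v.2 + (s v : ZMod n) := by
              rw [← add_assoc]; exact h2'
            have h6 := add_left_cancel h5
            rw [← h6]; ring
          rw [ZMod.natCast_eq_natCast_iff'] at h4
          have b1 := hs1 u hu'
          have b2 := hs1 v hv'
          rw [Nat.mod_eq_of_lt (by omega), Nat.mod_eq_of_lt (by omega)] at h4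
          omega
      have l1 := len p q hp' hq' hM e1 e4
      have l2 := len q p hq' hp' hM.symm e1.symm e4.symm
      have l3 : s p = s q := le_antisymm l1 l2
      rw [l3] at e4
      exact Prod.ext hM (e.injective (add_right_cancel e4))
  -- the entering pairs below a minimal member
  obtain ⟨M, hM, hmin⟩ := F.exists_minimal ⟨univ, h1⟩
  have hMne : M.Nonempty := by
    rw [nonempty_iff_ne_empty]
    rintro rfl
    exact h0 hM
  obtain ⟨j, hj⟩ := hMne
  have hnot : ∀ M' ∈ F, ¬ M' ⊆ M.erase j := by
    intro M' hM' hsub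
    have h2 : M' ≤ M := hsub.trans (erase_subset _ _)
    have h3 : M ≤ M' := hmin hM' h2
    exact (mem_erase.1 (hsub (h3 hj))).1 rfl
  have hlt : E'.card < E.card := by
    apply card_lt_card
    rw [hE', ssubset_iff_of_subset (filter_subset _ _)]
    refine ⟨(M.erase j, j), ?_, ?_⟩
    · rw [hE, mem_filter]
      refine ⟨mem_univ _, fun h => hnot _ h Subset.rfl, by simp, ?_⟩
      show insert j (M.erase j) ∈ F
      rw [insert_erase hj]; exact hM
    · rw [mem_filter]
      rintro ⟨-, M', hM', hsub⟩
      exact hnot M' hM' hsub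
  -- fibres
  have fib : ∀ i : α, (F.filter (fun A => i ∈ A)).card
      + (univ.filter (fun A => A ∈ F ∧ i ∉ A ∧ insert i A ∉ F)).card
      = (F.filter (fun A => i ∉ A)).card
      + (univ.filter (fun A => A ∉ F ∧ i ∉ A ∧ insert i A ∈ F)).card := by
    intro i
    have a1 : (F.filter (fun A => i ∈ A)).card
        = (univ.filter (fun A : Finset α => i ∉ A ∧ insert i A ∈ F)).card := by
      refine card_nbij' (fun A => A.erase i) (fun A => insert i A) ?_ ?_ ?_ ?_
      · intro A hA
        simp only [coe_filter, Set.mem_ofPred_eq, mem_univ, true_and] at hA ⊢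
        refine ⟨by simp, ?_⟩
        rw [insert_erase hA.2]; exact hA.1
      · intro A hA
        simp only [coe_filter, Set.mem_ofPred_eq, mem_univ, true_and] at hA ⊢
        exact ⟨hA.2, mem_insert_self _ _⟩
      · intro A hA
        simp only [coe_filter, Set.mem_ofPred_eq] at hA
        exact insert_erase hA.2
      · intro A hA
        simp only [coe_filter, Set.mem_ofPred_eq, mem_univ, true_and] at hA
        exact erase_insert hA.1
    have a2 := card_filter_add_card_filter_not
      (s := univ.filter (fun A : Finset α => i ∉ A ∧ insert i A ∈ F)) (fun A => A ∈ F)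
    have a3 := card_filter_add_card_filter_not
      (s := F.filter (fun A => i ∉ A)) (fun A => insert i A ∈ F)
    rw [filter_filter, filter_filter] at a2 a3
    have b1 : (univ.filter (fun A : Finset α => (i ∉ A ∧ insert i A ∈ F) ∧ A ∈ F))
        = F.filter (fun A => i ∉ A ∧ insert i A ∈ F) := by
      ext A; simp only [mem_filter, mem_univ, true_and]; tauto
    have b2 : (univ.filter (fun A : Finset α => (i ∉ A ∧ insert i A ∈ F) ∧ A ∉ F))
        = univ.filter (fun A => A ∉ F ∧ i ∉ A ∧ insert i A ∈ F) := by
      ext A; simp only [mem_filter, mem_univ, true_and]; tauto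
    have b3 : (F.filter (fun A => i ∉ A ∧ insert i A ∉ F))
        = univ.filter (fun A => A ∈ F ∧ i ∉ A ∧ insert i A ∉ F) := by
      ext A; simp only [mem_filter, mem_univ, true_and]
    rw [b1, b2] at a2
    rw [b3] at a3
    omega
  have sumL : ∑ i : α, (univ.filter (fun A => A ∈ F ∧ i ∉ A ∧ insert i A ∉ F)).card = L.card := by
    rw [hL, card_eq_sum_card_fiberwise (f := Prod.snd) (t := univ)
      (fun _ _ => mem_coe.2 (mem_univ _))]
    refine sum_congr rfl fun i _ => ?_
    refine card_nbij' (fun A => (A, i)) (fun p => p.1) ?_ ?_ ?_ ?_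
    · intro A hA
      simpa using hA
    · intro p hp
      simp only [coe_filter, mem_filter, mem_univ, true_and, Set.mem_ofPred_eq] at hp ⊢
      rw [← hp.2]; exact hp.1
    · intro A _; rfl
    · intro p hp
      simp only [coe_filter, mem_filter, mem_univ, true_and, Set.mem_ofPred_eq] at hp
      exact Prod.ext rfl hp.2.symm
  have sumE : ∑ i : α, (univ.filter (fun A => A ∉ F ∧ i ∉ A ∧ insert i A ∈ F)).card = E.card := by
    rw [hE, card_eq_sum_card_fiberwise (f := Prod.snd) (t := univ)
      (fun _ _ => mem_coe.2 (mem_univ _))]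
    refine sum_congr rfl fun i _ => ?_
    refine card_nbij' (fun A => (A, i)) (fun p => p.1) ?_ ?_ ?_ ?_
    · intro A hA
      simpa using hA
    · intro p hp
      simp only [coe_filter, mem_filter, mem_univ, true_and, Set.mem_ofPred_eq] at hp ⊢
      rw [← hp.2]; exact hp.1
    · intro A _; rfl
    · intro p hp
      simp only [coe_filter, mem_filter, mem_univ, true_and, Set.mem_ofPred_eq] at hp
      exact Prod.ext rfl hp.2.symm
  -- conclusion by averaging
  by_contra hcon
  push Not at hcon
  have hi : ∀ i : α, (F.filter (fun A => i ∈ A)).card ≤ (F.filter (fun A => i ∉ A)).card := by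
    intro i
    have := hcon i
    have h2 := card_filter_add_card_filter_not (s := F) (fun A => i ∈ A)
    omega
  have h2 := sum_le_sum fun i (_ : i ∈ (univ : Finset α)) => hi i
  have h3 : ∑ i : α, ((F.filter (fun A => i ∈ A)).card
      + (univ.filter (fun A => A ∈ F ∧ i ∉ A ∧ insert i A ∉ F)).card)
      = ∑ i : α, ((F.filter (fun A => i ∉ A)).card
      + (univ.filter (fun A => A ∉ F ∧ i ∉ A ∧ insert i A ∈ F)).card) :=
    sum_congr rfl fun i _ => fib i
  rw [sum_add_distrib, sum_add_distrib, sumL, sumE] at h3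
  omega

end core

lemma mem_closure {n : ℕ} {F : Finset (Finset (Fin n))} {A : Finset (Fin n)} :
    A ∈ closure F ↔ A.Nonempty ∧ UnionClosed (F ∪ {A}) := by
  classical
  unfold closure allNonempty
  simp

/-- A family whose second closure is everything has no chain `A₁ ⊂ A₂ ⊂ B` with
`A₁, A₂ ∈ F`, `B ∉ F`. -/
lemma chain_of_dense {n : ℕ} {F : Finset (Finset (Fin n))} (hF : UnionClosed F)
    (h : closure (closure F) = allNonempty n) :
    ∀ A ∈ F, ∀ B ∈ F, A ⊂ B → ∀ C, B ⊆ C → C ∈ F := by
  classical
  obtain ⟨h0, h1, hu⟩ := hF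
  have sub : F ⊆ closure F := by
    intro A hA
    rw [mem_closure]
    refine ⟨?_, ?_⟩
    · rw [nonempty_iff_ne_empty]; rintro rfl; exact h0 hA
    · have : F ∪ {A} = F := by
        rw [union_eq_left]; intro z hz; rw [mem_singleton.1 hz]; exact hA
      rw [this]; exact ⟨h0, h1, hu⟩
  -- the closure is an up-set
  have up : ∀ X ∈ closure F, ∀ Z, X ⊆ Z → Z ∈ closure F := by
    intro X hX Z hXZ
    by_cases hZ : Z ⊆ X
    · rw [subset_antisymm hZ hXZ]; exact hX
    · have hne : (Z \ X).Nonempty := by
        rw [nonempty_iff_ne_empty]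
        intro he
        exact hZ (sdiff_eq_empty_iff_subset.1 he)
      have hXne : X.Nonempty := (mem_closure.1 hX).1
      have hY : Z \ X ∈ closure (closure F) := by
        rw [h]; unfold allNonempty; rw [mem_filter]; exact ⟨mem_univ _, hne⟩
      have huc := (mem_closure.1 hY).2.2.2 X (mem_union_left _ hX) (Z \ X)
        (mem_union_right _ (mem_singleton_self _))
      rw [union_sdiff_of_subset hXZ, mem_union, mem_singleton] at huc
      rcases huc with huc | huc
      · exact huc
      · exfalso
        obtain ⟨z, hz⟩ := hXne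
        have : z ∈ Z \ X := by rw [← huc]; exact hXZ hz
        exact (mem_sdiff.1 this).2 hz
  intro A hA B hB hAB C hBC
  by_cases hCB : C ⊆ B
  · rw [subset_antisymm hCB hBC]; exact hB
  obtain ⟨a, haB, haA⟩ := exists_of_ssubset hAB
  have hZ : C.erase a ∈ closure F := by
    refine up A (sub hA) _ ?_
    intro z hz
    exact mem_erase.2 ⟨fun h => haA (h ▸ hz), hBC (hAB.1 hz)⟩
  have huc := (mem_closure.1 hZ).2.2.2 B (mem_union_left _ hB) (C.erase a)
    (mem_union_right _ (mem_singleton_self _))
  have hU : B ∪ C.erase a = C := by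
    ext z
    simp only [mem_union, mem_erase]
    constructor
    · rintro (hz | hz)
      · exact hBC hz
      · exact hz.2
    · intro hz
      by_cases hza : z = a
      · left; rw [hza]; exact haB
      · right; exact ⟨hza, hz⟩
  rw [hU, mem_union, mem_singleton] at huc
  rcases huc with huc | huc
  · exact huc
  · exfalso
    have : a ∈ C.erase a := by rw [← huc]; exact hBC haB
    exact (mem_erase.1 this).1 rfl

/-- **Main theorem.** For every `n ≥ 1`, every 2-dense union-closed family `F` over `[n]` has an
element lying in strictly more than half of its members; in particular it satisfies Frankl's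
condition. -/
theorem result : ∀ n : ℕ, 1 ≤ n → ∀ F : Finset (Finset (Fin n)), UnionClosed F → Dense 2 F →
    ∃ i : Fin n, F.card < 2 * (F.filter (fun A => i ∈ A)).card ∧
      F.card / 2 ≤ (F.filter (fun A => i ∈ A)).card := by
  intro n hn F hF hD
  have : NeZero n := ⟨by omega⟩
  obtain ⟨i, hi⟩ := core (Fintype.equivOfCardEq (by simp : Fintype.card (Fin n)
    = Fintype.card (ZMod n))) F hF.1 hF.2.1 hF.2.2 (chain_of_dense hF hD.1)
  exact ⟨i, hi, by omega⟩

end Pool.Agent.Results.MP_5b71d7_co.TwoDense
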